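import Mathlib
import Pool.Agent.RamCay384.General

/-!
MP_bf05d5_co, Q1: answer YES.

There is an absolute constant `C` such that for every `n ≥ 1` the group
`G_n = (ℤ/L_n)^n`, `L_n = lcm(1, …, 2^(2^n))`, has a `C`-Ramsey Cayley graph.
-/

namespace Pool.Agent.Results.MP_bf05d5_co.GnRamseyCayley

/-- `lcm(1, 2, …, m)`. -/
def lcmUpTo (m : ℕ) : ℕ := (Finset.Icc 1 m).lcm id

/-- The group `G_n = (ℤ/L_n ℤ)^n` with `L_n = lcm(1, …, 2^(2^n))`. -/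
abbrev Gn (n : ℕ) : Type := Fin n → ZMod (lcmUpTo (2 ^ (2 ^ n)))

/-- The Cayley graph `Cay(G, S)`: `x` and `y` are adjacent exactly when `y - x ∈ S`. -/
def Cay {G : Type} [AddCommGroup G] (S : Set G) (h0 : (0 : G) ∉ S) (hneg : ∀ x, x ∈ S → -x ∈ S) :
    SimpleGraph G where
  Adj x y := y - x ∈ S
  symm := ⟨fun x y h => by have := hneg _ h; rwa [neg_sub] at this⟩
  loopless := ⟨fun x h => h0 (by rwa [sub_self] at h)⟩

/-- A graph is `C`-Ramsey if each of its cliques and each of its independent sets has at most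
`C log₂ |V|` vertices. -/
def IsRamsey {V : Type} (C : ℝ) (Γ : SimpleGraph V) : Prop :=
  (∀ A : Finset V, Γ.IsClique A → (A.card : ℝ) ≤ C * Real.logb 2 (Nat.card V)) ∧
  (∀ A : Finset V, Γ.IsIndepSet A → (A.card : ℝ) ≤ C * Real.logb 2 (Nat.card V))

theorem lcmUpTo_ne_zero (m : ℕ) : lcmUpTo m ≠ 0 := by
  unfold lcmUpTo
  rw [Ne, Finset.lcm_eq_zero_iff]
  rintro ⟨x, hx, h⟩
  have := (Finset.mem_Icc.mp hx).1
  simp only [id] at h
  omega

theorem le_lcmUpTo (m : ℕ) (hm : 1 ≤ m) : m ≤ lcmUpTo m := by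
  apply Nat.le_of_dvd (Nat.pos_of_ne_zero (lcmUpTo_ne_zero m))
  exact Finset.dvd_lcm (f := id) (Finset.mem_Icc.mpr ⟨hm, le_rfl⟩)

/-- **Main result** (Q1 of MP_bf05d5_co has the answer yes). -/
theorem result : ∃ C : ℝ, 1 / 2 < C ∧ ∀ n : ℕ, 1 ≤ n →
    ∃ (S : Set (Gn n)) (h0 : (0 : Gn n) ∉ S) (hneg : ∀ x, x ∈ S → -x ∈ S),
      IsRamsey C (Cay S h0 hneg) := by
  refine ⟨2 ^ 49, by norm_num, fun n hn => ?_⟩
  have hL0 := lcmUpTo_ne_zero (2 ^ (2 ^ n))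
  have : NeZero (lcmUpTo (2 ^ (2 ^ n))) := ⟨hL0⟩
  have hL : 2 ^ n ≤ lcmUpTo (2 ^ (2 ^ n)) :=
    (Nat.pow_le_pow_right (by norm_num) (Nat.lt_two_pow_self (n := n)).le).trans
      (le_lcmUpTo _ (Nat.one_le_pow _ _ (by norm_num)))
  have hL2 : 2 ≤ lcmUpTo (2 ^ (2 ^ n)) := by
    calc 2 = 2 ^ 1 := by norm_num
      _ ≤ 2 ^ n := Nat.pow_le_pow_right (by norm_num) hn
      _ ≤ _ := hL
  have hcard : Nat.card (Gn n) = lcmUpTo (2 ^ (2 ^ n)) ^ n := by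
    unfold Gn
    rw [Nat.card_pi]
    simp
  have : Nontrivial (Gn n) := by
    rw [← Finite.one_lt_card_iff_nontrivial, hcard]
    calc 1 < 2 ^ 1 := by norm_num
      _ ≤ 2 ^ n := Nat.pow_le_pow_right (by norm_num) hn
      _ ≤ _ := Nat.pow_le_pow_left hL2 n
  have hlog : (n : ℝ) ^ 2 ≤ Real.logb 2 (Nat.card (Gn n)) := by
    rw [hcard]
    have hpos : (0 : ℝ) < ((lcmUpTo (2 ^ (2 ^ n)) ^ n : ℕ) : ℝ) := by
      exact_mod_cast pow_pos (by omega) n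
    rw [Real.le_logb_iff_rpow_le (by norm_num) hpos]
    have h1 : ((2 : ℝ) ^ ((n : ℝ) ^ 2)) = (((2 ^ n) ^ n : ℕ) : ℝ) := by
      rw [← Nat.cast_pow, Real.rpow_natCast]
      push_cast
      rw [← pow_mul, sq]
    rw [h1]
    exact_mod_cast Nat.pow_le_pow_left hL n
  let π : (Fin n → ℤ) →+ Gn n :=
    (Int.castAddHom (ZMod (lcmUpTo (2 ^ (2 ^ n))))).compLeft (Fin n)
  have hπ : Function.Surjective π := by
    intro g
    choose f hf using fun i => ZMod.intCast_surjective (g i)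
    exact ⟨f, funext hf⟩
  obtain ⟨S, h0, hneg, hc, hi⟩ := RamCay384.exists_cayley_log π hπ
  have hfin : ∀ c : ℝ, c ≤ 2 ^ 48 * ((n : ℝ) ^ 2 + Real.logb 2 (Nat.card (Gn n))) →
      c ≤ 2 ^ 49 * Real.logb 2 (Nat.card (Gn n)) := by
    intro c hc
    linarith
  refine ⟨S, h0, hneg, fun A hA => hfin _ (hc A ?_), fun A hA => hfin _ (hi A ?_)⟩
  · intro x hx y hy hxy
    exact hA (Finset.mem_coe.mpr hx) (Finset.mem_coe.mpr hy) hxy
  · intro x hx y hy hxy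
    exact hA (Finset.mem_coe.mpr hx) (Finset.mem_coe.mpr hy) hxy

end Pool.Agent.Results.MP_bf05d5_co.GnRamseyCayley
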